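import Mathlib

/-!
# The model `(ZMod 7)^3`, `ζ^3 = 2`, of the field with 343 elements inside fields of characteristic 7

The model and its arithmetic follow the library file `X254/NF1.lean` (team 64922ed1), with a field of
characteristic 7 that contains a cube root `ζ` of `2` in place of a field with 343 elements.
-/

set_option autoImplicit false

namespace Pool.Agent.KS6_42.NFD

/-- triples -/
abbrev M := ZMod 7 × ZMod 7 × ZMod 7

/-- multiplication of the model -/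
def mulM (x y : M) : M :=
  (x.1 * y.1 + 2 * (x.2.1 * y.2.2 + x.2.2 * y.2.1),
    x.1 * y.2.1 + x.2.1 * y.1 + 2 * (x.2.2 * y.2.2),
    x.1 * y.2.2 + x.2.1 * y.2.1 + x.2.2 * y.1)

/-- Frobenius -/
def sigM (x : M) : M := (x.1, 4 * x.2.1, 2 * x.2.2)

/-- norm -/
def nrM (x : M) : ZMod 7 :=
  x.1 ^ 3 + 2 * x.2.1 ^ 3 + 4 * x.2.2 ^ 3 + x.1 * x.2.1 * x.2.2

/-- the class -/
def clM (y : M) : ℕ := if nrM y ^ 2 = 4 then 1 else if nrM y ^ 2 = 2 then 2 else 0

/-- the multiplication of the nearfield -/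
def nmM (x y : M) : M := mulM (sigM^[clM y] x) y

lemma norm_id : ∀ a b c : ZMod 7,
    mulM (mulM (a, b, c) (sigM (a, b, c))) (sigM (sigM (a, b, c))) = (nrM (a, b, c), 0, 0) := by
  decide +kernel

lemma norm_ne : ∀ a b c : ZMod 7, nrM (a, b, c) = 0 → (a, b, c) = ((0, 0, 0) : M) := by
  decide +kernel

/-- the ninth roots of unity in the model -/
def L9 : List M := [(1,0,0),(2,0,0),(4,0,0),(0,1,0),(0,2,0),(0,4,0),(0,0,1),(0,0,2),(0,0,4)]

/-- the model of `1 - u` -/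
def sb (u : M) : M := (1,0,0) + -u

lemma ratio_check : ∀ u ∈ L9, ∀ v ∈ L9, ∀ u' ∈ L9, ∀ v' ∈ L9,
    mulM (sb u) (sb v') = mulM (sb v) (sb u') → u = (1,0,0) ∨ v = (1,0,0) ∨ u' = (1,0,0) ∨
      v' = (1,0,0) ∨ u = v ∨ u' = v' ∨ (u = u' ∧ v = v') := by
  decide +kernel

section K

variable {K : Type} [Field K] [CharP K 7]

lemma seven : (7 : K) = 0 := by
  exact_mod_cast CharP.cast_eq_zero K 7

lemma two_ne : (2 : K) ≠ 0 := by
  intro h2
  have h7 := seven (K := K)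
  have : (1 : K) = 0 := by linear_combination h7 - 3 * h2
  exact one_ne_zero this

lemma four_ne_two : (4 : K) ≠ 2 := by
  intro h2
  exact two_ne (K := K) (by linear_combination h2)

lemma four_ne_one : (4 : K) ≠ 1 := by
  intro h2
  have h7 := seven (K := K)
  have : (1 : K) = 0 := by linear_combination h7 - 2 * h2
  exact one_ne_zero this

omit [CharP K 7] in
lemma two_ne_one : (2 : K) ≠ 1 := by
  intro h2
  have : (1 : K) = 0 := by linear_combination h2
  exact one_ne_zero this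

lemma cube_one {w : K} (hw : w ^ 3 = 1) : w = 1 ∨ w = 2 ∨ w = 4 := by
  have h7 := seven (K := K)
  have h1 : (w - 1) * ((w - 2) * (w - 4)) = 0 := by
    linear_combination hw + (-w ^ 2 + 2 * w - 1) * h7
  rcases mul_eq_zero.1 h1 with h2 | h2
  · exact Or.inl (sub_eq_zero.1 h2)
  · rcases mul_eq_zero.1 h2 with h3 | h3
    · exact Or.inr (Or.inl (sub_eq_zero.1 h3))
    · exact Or.inr (Or.inr (sub_eq_zero.1 h3))

/-- the prime field -/
noncomputable def io (K : Type) [Field K] [CharP K 7] : ZMod 7 →+* K :=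
  ZMod.castHom (dvd_refl 7) K

/-- the elements of the model -/
noncomputable def ph (ζ : K) (x : M) : K :=
  io K x.1 + io K x.2.1 * ζ + io K x.2.2 * ζ ^ 2

variable {ζ : K} (hz : ζ ^ 3 = 2)

lemma ph_add (x y : M) : ph ζ x + ph ζ y = ph ζ (x + y) := by
  unfold ph
  simp only [Prod.fst_add, Prod.snd_add, map_add]
  ring

lemma ph_neg (x : M) : - ph ζ x = ph ζ (-x) := by
  unfold ph
  simp only [Prod.fst_neg, Prod.snd_neg, map_neg]
  ring

include hz in
lemma ph_mul (x y : M) : ph ζ x * ph ζ y = ph ζ (mulM x y) := by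
  unfold ph mulM
  simp only [map_add, map_mul, map_ofNat]
  linear_combination (io K x.2.1 * io K y.2.2 + io K x.2.2 * io K y.2.1 +
    io K x.2.2 * io K y.2.2 * ζ) * hz

include hz in
lemma ph_frob (x : M) : ph ζ x ^ 7 = ph ζ (sigM x) := by
  have hp : Fact (Nat.Prime 7) := ⟨by norm_num⟩
  have hex : ExpChar K 7 := ExpChar.prime hp.out
  have h7 := seven (K := K)
  have hi : ∀ a : ZMod 7, io K a ^ 7 = io K a := by
    intro a
    rw [← map_pow, ZMod.pow_card]
  have hz7 : ζ ^ 7 = 4 * ζ := by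
    linear_combination (ζ ^ 4 + 2 * ζ) * hz
  unfold ph sigM
  rw [add_pow_char, add_pow_char, mul_pow, mul_pow, hi, hi, hi, ← pow_mul,
    show 2 * 7 = 7 * 2 by norm_num, pow_mul, hz7]
  simp only [map_mul, map_ofNat]
  linear_combination (2 * io K x.2.2 * ζ ^ 2) * h7

lemma ph_zero : ph ζ (0, 0, 0) = 0 := by
  unfold ph
  simp

lemma ph_one : ph ζ (1, 0, 0) = 1 := by
  unfold ph
  simp

include hz in
lemma ph_57 (x : M) : ph ζ x ^ 57 = io K (nrM x) := by
  have h1 : ph ζ x ^ 57 = ph ζ x * ph ζ x ^ 7 * (ph ζ x ^ 7) ^ 7 := by ring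
  rw [h1, ph_frob hz, ph_frob hz, ph_mul hz, ph_mul hz]
  obtain ⟨a, b, c⟩ := x
  rw [norm_id]
  unfold ph
  simp

include hz in
lemma ph_inj {x y : M} (hxy : ph ζ x = ph ζ y) : x = y := by
  have h1 : ph ζ (x + -y) = 0 := by
    rw [← ph_add, ← ph_neg, hxy, add_neg_cancel]
  have h2 := ph_57 hz (x + -y)
  rw [h1, zero_pow (by norm_num)] at h2
  have hp : Fact (Nat.Prime 7) := ⟨by norm_num⟩
  have h3 : nrM (x + -y) = 0 := by
    apply (io K).injective
    rw [← h2, map_zero]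
  have h4 := norm_ne (x + -y).1 (x + -y).2.1 (x + -y).2.2 h3
  have h5 : x + -y = 0 := h4
  exact (add_neg_eq_zero.1 h5)

include hz in
lemma zeta_ne : ζ ≠ 0 := by
  intro h0
  rw [h0, zero_pow (by norm_num)] at hz
  exact two_ne hz.symm

include hz in
lemma ninth {y : K} (hy : y ^ 9 = 1) : ∃ v ∈ L9, y = ph ζ v := by
  have h7 := seven (K := K)
  have hz0 := zeta_ne hz
  have h1 : (y ^ 3) ^ 3 = 1 := by rw [← pow_mul]; exact hy
  have key : ∀ x : K, x ^ 3 = 1 → ∀ a b c : ZMod 7, (a, b, c) ∈ L9 → (2 * a, 2 * b, 2 * c) ∈ L9 →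
      (4 * a, 4 * b, 4 * c) ∈ L9 → y = x * ph ζ (a, b, c) → ∃ v ∈ L9, y = ph ζ v := by
    intro x hx a b c m1 m2 m4 hyx
    rcases cube_one hx with h2 | h2 | h2
    · exact ⟨_, m1, by rw [hyx, h2, one_mul]⟩
    · refine ⟨_, m2, ?_⟩
      rw [hyx, h2]
      unfold ph
      simp only [map_mul, map_ofNat]
      ring
    · refine ⟨_, m4, ?_⟩
      rw [hyx, h2]
      unfold ph
      simp only [map_mul, map_ofNat]
      ring
  rcases cube_one h1 with h2 | h2 | h2
  · exact key y h2 1 0 0 (by decide) (by decide) (by decide) (by rw [ph_one, mul_one])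
  · have e : ph ζ (0, 1, 0) = ζ := by unfold ph; simp
    refine key (y / ζ) ?_ 0 1 0 (by decide) (by decide) (by decide) ?_
    · rw [div_pow, h2, hz, div_self two_ne]
    · rw [e, div_mul_cancel₀ _ hz0]
  · have e : ph ζ (0, 0, 1) = ζ ^ 2 := by unfold ph; simp
    refine key (y / ζ ^ 2) ?_ 0 0 1 (by decide) (by decide) (by decide) ?_
    · rw [div_pow, h2, ← pow_mul, mul_comm 2 3, pow_mul, hz]
      have : (2 : K) ^ 2 = 4 := by norm_num
      rw [this, div_self]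
      intro h4
      have h5 : (2 : K) * 2 = 0 := by linear_combination h4
      exact two_ne (mul_self_eq_zero.1 h5)
    · rw [e, div_mul_cancel₀ _ (pow_ne_zero 2 hz0)]

include hz in
lemma ratio {u v u' v' : K} (hu : u ^ 9 = 1) (hv : v ^ 9 = 1) (hu' : u' ^ 9 = 1) (hv' : v' ^ 9 = 1)
    (e : (1 - u) * (1 - v') = (1 - v) * (1 - u')) (h1 : u ≠ 1) (h2 : v ≠ 1) (h3 : u' ≠ 1)
    (h4 : v' ≠ 1) (h5 : u ≠ v) (h6 : u' ≠ v') : u = u' ∧ v = v' := by
  obtain ⟨a, ha, rfl⟩ := ninth hz hu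
  obtain ⟨b, hb, rfl⟩ := ninth hz hv
  obtain ⟨a', ha', rfl⟩ := ninth hz hu'
  obtain ⟨b', hb', rfl⟩ := ninth hz hv'
  have hs : ∀ x : M, 1 - ph ζ x = ph ζ (sb x) := by
    intro x
    unfold sb
    rw [← ph_add, ← ph_neg, ph_one, sub_eq_add_neg]
  rw [hs, hs, hs, hs, ph_mul hz, ph_mul hz] at e
  have e' := ph_inj hz e
  have hne : ∀ x : M, ph ζ x ≠ 1 → x ≠ (1, 0, 0) := by
    rintro x hx rfl
    exact hx ph_one
  rcases ratio_check a ha b hb a' ha' b' hb' e' with q | q | q | q | q | q | q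
  · exact absurd q (hne _ h1)
  · exact absurd q (hne _ h2)
  · exact absurd q (hne _ h3)
  · exact absurd q (hne _ h4)
  · exact absurd (by rw [q]) h5
  · exact absurd (by rw [q]) h6
  · exact ⟨by rw [q.1], by rw [q.2]⟩

include hz in
/-- two blocks with three common points are equal -/
theorem field_blocks (G : Subgroup Kˣ) (h9 : ∀ x ∈ G, (x : K) ^ 9 = 1) {s t : Kˣ} {a b p q r : K}
    (hpq : p ≠ q) (hpr : p ≠ r) (hqr : q ≠ r)
    (p1 : ∃ x ∈ G, p = (x : K) * s + a) (q1 : ∃ x ∈ G, q = (x : K) * s + a)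
    (r1 : ∃ x ∈ G, r = (x : K) * s + a) (p2 : ∃ x ∈ G, p = (x : K) * t + b)
    (q2 : ∃ x ∈ G, q = (x : K) * t + b) (r2 : ∃ x ∈ G, r = (x : K) * t + b) :
    {y : K | ∃ x ∈ G, y = (x : K) * s + a} = {y : K | ∃ x ∈ G, y = (x : K) * t + b} := by
  obtain ⟨x1, m1, e1⟩ := p1
  obtain ⟨x2, m2, e2⟩ := q1
  obtain ⟨x3, m3, e3⟩ := r1
  obtain ⟨y1, n1, f1⟩ := p2
  obtain ⟨y2, n2, f2⟩ := q2
  obtain ⟨y3, n3, f3⟩ := r2
  have hx1 : (x1 : K) ≠ 0 := x1.ne_zero
  have hy1 : (y1 : K) ≠ 0 := y1.ne_zero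
  have hs : (s : K) ≠ 0 := s.ne_zero
  have ht : (t : K) ≠ 0 := t.ne_zero
  have d12 : (x1 : K) ≠ x2 := fun e => hpq (by rw [e1, e2, e])
  have d13 : (x1 : K) ≠ x3 := fun e => hpr (by rw [e1, e3, e])
  have d23 : (x2 : K) ≠ x3 := fun e => hqr (by rw [e2, e3, e])
  have c12 : (y1 : K) ≠ y2 := fun e => hpq (by rw [f1, f2, e])
  have c13 : (y1 : K) ≠ y3 := fun e => hpr (by rw [f1, f3, e])
  have c23 : (y2 : K) ≠ y3 := fun e => hqr (by rw [f2, f3, e])
  have k1 : ((x1 : K) - x2) * s = (y1 - y2) * t := by linear_combination f1 - e1 - f2 + e2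
  have k2 : ((x1 : K) - x3) * s = (y1 - y3) * t := by linear_combination f1 - e1 - f3 + e3
  have k3 : ((x1 : K) - x2) * (y1 - y3) = (x1 - x3) * (y1 - y2) := by
    have : (((x1 : K) - x2) * (y1 - y3) - (x1 - x3) * (y1 - y2)) * (s * t) = 0 := by
      linear_combination (y1 - y3 : K) * t * k1 - (y1 - y2 : K) * t * k2
    rcases mul_eq_zero.1 this with h0 | h0
    · exact sub_eq_zero.1 h0
    · exact absurd h0 (mul_ne_zero hs ht)
  have dv : ∀ x ∈ G, ∀ y ∈ G, ((x : K) / y) ^ 9 = 1 := by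
    intro x hx y hy
    rw [div_pow, h9 x hx, h9 y hy, div_one]
  have nq : ∀ x y : K, y ≠ 0 → y ≠ x → x / y ≠ 1 := by
    intro x y h0 h1 h2
    exact h1 ((div_eq_one_iff_eq h0).1 h2).symm
  have e : (1 - (x2 : K) / x1) * (1 - (y3 : K) / y1) = (1 - (x3 : K) / x1) * (1 - (y2 : K) / y1) := by
    field_simp
    linear_combination k3
  obtain ⟨r2', -⟩ := ratio hz (dv x2 m2 x1 m1) (dv x3 m3 x1 m1) (dv y2 n2 y1 n1)
    (dv y3 n3 y1 n1) e (nq _ _ hx1 d12) (nq _ _ hx1 d13) (nq _ _ hy1 c12) (nq _ _ hy1 c13)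
    (fun e0 => d23 (by
      have := congrArg (fun z => z * (x1 : K)) e0
      simpa [div_mul_cancel₀ _ hx1] using this))
    (fun e0 => c23 (by
      have := congrArg (fun z => z * (y1 : K)) e0
      simpa [div_mul_cancel₀ _ hy1] using this))
  -- `t = (x1 / y1) s`
  have k4 : (x1 : K) * s = y1 * t := by
    have h1 : (x2 : K) * y1 = y2 * x1 := by
      field_simp at r2'
      linear_combination r2'
    have h2 : ((x1 : K) * s - y1 * t) * (y1 - y2) = 0 := by
      linear_combination y1 * k1 + s * h1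
    rcases mul_eq_zero.1 h2 with h0 | h0
    · exact sub_eq_zero.1 h0
    · exact absurd (sub_eq_zero.1 h0) c12
  have k5 : a = b := by linear_combination f1 - e1 + (-1 : K) * k4
  subst k5
  have k6 : x1 * s = y1 * t := Units.ext (by push_cast; exact k4)
  ext y
  constructor
  · rintro ⟨x, hx, rfl⟩
    refine ⟨x * x1⁻¹ * y1, G.mul_mem (G.mul_mem hx (G.inv_mem m1)) n1, ?_⟩
    have h1 : x * s = x * x1⁻¹ * y1 * t := by
      rw [mul_assoc, ← k6, mul_assoc x, inv_mul_cancel_left]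
    have h2 := congrArg Units.val h1
    push_cast at h2 ⊢
    rw [h2]
  · rintro ⟨x, hx, rfl⟩
    refine ⟨x * y1⁻¹ * x1, G.mul_mem (G.mul_mem hx (G.inv_mem n1)) m1, ?_⟩
    have h1 : x * t = x * y1⁻¹ * x1 * s := by
      rw [mul_assoc, k6, mul_assoc x, inv_mul_cancel_left]
    have h2 := congrArg Units.val h1
    push_cast at h2 ⊢
    rw [h2]

end K

end Pool.Agent.KS6_42.NFD
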