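import Pool.Agent.KS6_42.NFD.Model

/-!
# The Dickson multiplication on a field with `343 ^ m` elements, `3 ∤ m`

`Q = 7 ^ m` and `x ∘ y = x ^ (Q ^ c(y)) y`, where `y ^ ((Q ^ 3 - 1) / 3) = 4 ^ c(y)`. On the subfield with
343 elements this is the nearfield of order 343 of the model.
-/

set_option autoImplicit false
set_option linter.unusedSectionVars false

namespace Pool.Agent.KS6_42.NFD

/-- `(343 ^ m - 1) / 342` -/
def kk : ℕ → ℕ
  | 0 => 0
  | m + 1 => 343 * kk m + 1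

lemma kk_eq (m : ℕ) : 342 * kk m + 1 = 343 ^ m := by
  induction m with
  | zero => rfl
  | succ m ih =>
    rw [pow_succ, ← ih]
    simp only [kk]
    ring

lemma kk_mod (m : ℕ) : kk m % 6 = m % 6 := by
  induction m with
  | zero => rfl
  | succ m ih =>
    simp only [kk]
    omega

section K

variable {K : Type} [Field K] [CharP K 7]

open Classical in
/-- the class -/
noncomputable def cl (m : ℕ) (y : K) : ℕ :=
  if y ^ (114 * kk m) = 4 then 1 else if y ^ (114 * kk m) = 2 then 2 else 0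

/-- the multiplication -/
noncomputable def nm (m : ℕ) (x y : K) : K := x ^ ((7 ^ m) ^ cl m y) * y

variable {m : ℕ} (h : Nat.card K = 343 ^ m)

include h in
lemma finite_K : Finite K := Nat.finite_of_card_ne_zero (by rw [h]; positivity)

include h in
lemma pow_card_sub {y : K} (hy : y ≠ 0) : y ^ (342 * kk m) = 1 := by
  have hf : Finite K := finite_K h
  have := Fintype.ofFinite K
  have h1 := FiniteField.pow_card_sub_one_eq_one y hy
  rw [← Nat.card_eq_fintype_card, h, ← kk_eq, Nat.add_sub_cancel] at h1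
  exact h1

include h in
lemma pow_card' (y : K) : y ^ (343 ^ m) = y := by
  by_cases hy : y = 0
  · rw [hy]
    simp
  · rw [← kk_eq, pow_succ, pow_card_sub h hy, one_mul]

include h in
lemma cl_cases {y : K} (hy : y ≠ 0) :
    (y ^ (114 * kk m) = 1 ∧ cl m y = 0) ∨ (y ^ (114 * kk m) = 4 ∧ cl m y = 1) ∨
      (y ^ (114 * kk m) = 2 ∧ cl m y = 2) := by
  have h3 : (y ^ (114 * kk m)) ^ 3 = 1 := by
    rw [← pow_mul, show 114 * kk m * 3 = 342 * kk m by ring]
    exact pow_card_sub h hy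
  rcases cube_one h3 with e | e | e
  · left
    refine ⟨e, ?_⟩
    unfold cl
    rw [e, if_neg four_ne_one.symm, if_neg two_ne_one.symm]
  · right; right
    refine ⟨e, ?_⟩
    unfold cl
    rw [e, if_neg four_ne_two.symm, if_pos rfl]
  · right; left
    refine ⟨e, ?_⟩
    unfold cl
    rw [e, if_pos rfl]

omit [CharP K 7] in
lemma pow_seven_pow {w : K} (hw : w ^ 7 = w) (n : ℕ) : w ^ (7 ^ n) = w := by
  induction n with
  | zero => simp
  | succ n ih => rw [pow_succ, pow_mul, ih, hw]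

include h in
lemma w7 {y : K} (hy : y ≠ 0) : (y ^ (114 * kk m)) ^ 7 = y ^ (114 * kk m) := by
  have h1 := pow_card_sub h hy
  calc (y ^ (114 * kk m)) ^ 7 = y ^ (342 * kk m) * (y ^ (342 * kk m) * y ^ (114 * kk m)) := by ring
    _ = y ^ (114 * kk m) := by rw [h1, one_mul, one_mul]

omit [CharP K 7] in
lemma nm_ne {x y : K} (hx : x ≠ 0) (hy : y ≠ 0) : nm m x y ≠ 0 :=
  mul_ne_zero (pow_ne_zero _ hx) hy

include h in
lemma nm_114 {x y : K} (hx : x ≠ 0) :
    (nm m x y) ^ (114 * kk m) = x ^ (114 * kk m) * y ^ (114 * kk m) := by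
  unfold nm
  rw [mul_pow, ← pow_mul, mul_comm ((7 ^ m) ^ cl m y) (114 * kk m), pow_mul, ← pow_mul 7,
    pow_seven_pow (w7 h hx)]

include h in
lemma pow_343 (x : K) (n : ℕ) : x ^ ((7 ^ m) ^ (n + 3)) = x ^ ((7 ^ m) ^ n) := by
  have h1 : (7 ^ m) ^ 3 = 343 ^ m := by
    rw [← pow_mul, mul_comm, pow_mul]
    norm_num
  rw [pow_add, mul_comm, pow_mul, h1, pow_card' h]

include h in
lemma nm_cl {x y : K} (hx : x ≠ 0) (hy : y ≠ 0) (z : K) :
    z ^ ((7 ^ m) ^ (cl m x + cl m y)) = z ^ ((7 ^ m) ^ cl m (nm m x y)) := by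
  have h7 := seven (K := K)
  have h1 := nm_114 h hx (y := y)
  have n1 : (4 : K) ≠ 1 := four_ne_one
  have n2 : (2 : K) ≠ 1 := two_ne_one
  have n3 : (4 : K) ≠ 2 := four_ne_two
  have e44 : (4 : K) * 4 = 2 := by linear_combination 2 * h7
  have e42 : (4 : K) * 2 = 1 := by linear_combination h7
  have e24 : (2 : K) * 4 = 1 := by linear_combination h7
  have e22 : (2 : K) * 2 = 4 := by norm_num
  rcases cl_cases h hx with ⟨a1, a2⟩ | ⟨a1, a2⟩ | ⟨a1, a2⟩ <;>
  rcases cl_cases h hy with ⟨b1, b2⟩ | ⟨b1, b2⟩ | ⟨b1, b2⟩ <;>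
  rcases cl_cases h (nm_ne (m := m) hx hy) with ⟨c1, c2⟩ | ⟨c1, c2⟩ | ⟨c1, c2⟩ <;>
  rw [a1, b1, c1] at h1 <;> rw [a2, b2, c2] <;>
  simp only [one_mul, mul_one, e44, e42, e24, e22] at h1 <;>
  first
    | rfl
    | exact absurd h1 n1
    | exact absurd h1.symm n1
    | exact absurd h1 n2
    | exact absurd h1.symm n2
    | exact absurd h1 n3
    | exact absurd h1.symm n3
    | exact pow_343 h z 0
    | exact pow_343 h z 1

omit [CharP K 7] in
lemma nm_zero (x : K) : nm m x 0 = 0 := by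
  unfold nm
  rw [mul_zero]

omit [CharP K 7] in
lemma zero_nm (x : K) : nm m 0 x = 0 := by
  unfold nm
  rw [zero_pow (pow_ne_zero _ (pow_ne_zero _ (by norm_num))), zero_mul]

include h in
lemma nm_assoc (x y z : K) : nm m (nm m x y) z = nm m x (nm m y z) := by
  by_cases hz : z = 0
  · rw [hz, nm_zero, nm_zero, nm_zero]
  by_cases hy : y = 0
  · rw [hy, nm_zero, zero_nm, nm_zero]
  have h1 := nm_cl h hy hz x
  have h2 : nm m (nm m x y) z = x ^ ((7 ^ m) ^ (cl m y + cl m z)) * (y ^ ((7 ^ m) ^ cl m z) * z) := by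
    unfold nm
    rw [mul_pow, ← pow_mul, ← pow_add, mul_assoc]
  rw [h2, h1]
  rfl

lemma cl_one : cl m (1 : K) = 0 := by
  unfold cl
  rw [one_pow, if_neg four_ne_one.symm, if_neg two_ne_one.symm]

lemma nm_one (x : K) : nm m x 1 = x := by
  unfold nm
  rw [cl_one]
  simp

omit [CharP K 7] in
lemma one_nm (x : K) : nm m 1 x = x := by
  unfold nm
  rw [one_pow, one_mul]

lemma nm_add (x y z : K) : nm m (x + y) z = nm m x z + nm m y z := by
  have hp : Fact (Nat.Prime 7) := ⟨by norm_num⟩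
  have hex : ExpChar K 7 := ExpChar.prime hp.out
  unfold nm
  rw [← pow_mul, add_pow_char_pow, add_mul]

/-- the inverse -/
noncomputable def ni (m : ℕ) (y : K) : K := (y⁻¹) ^ ((7 ^ m) ^ (3 - cl m y))

include h in
lemma ni_nm {y : K} (hy : y ≠ 0) : nm m (ni m y) y = 1 := by
  have h1 : 3 - cl m y + cl m y = 0 + 3 := by
    rcases cl_cases h hy with ⟨-, a⟩ | ⟨-, a⟩ | ⟨-, a⟩ <;> rw [a]
  unfold nm ni
  rw [← pow_mul, ← pow_add, h1, pow_343 h, pow_zero, pow_one, inv_mul_cancel₀ hy]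

omit [CharP K 7] in
lemma ni_ne {y : K} (hy : y ≠ 0) : ni m y ≠ 0 := pow_ne_zero _ (inv_ne_zero hy)

include h in
lemma nm_ni {y : K} (hy : y ≠ 0) : nm m y (ni m y) = 1 := by
  -- a left inverse is a right inverse
  have hz := ni_ne (m := m) hy
  have h1 := ni_nm h hy
  have h2 := ni_nm h hz
  calc nm m y (ni m y) = nm m 1 (nm m y (ni m y)) := (one_nm _).symm
    _ = nm m (nm m (ni m (ni m y)) (ni m y)) (nm m y (ni m y)) := by rw [h2]
    _ = nm m (ni m (ni m y)) (nm m (nm m (ni m y) y) (ni m y)) := by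
        rw [nm_assoc h, nm_assoc h]
    _ = 1 := by rw [h1, one_nm, h2]

include h in
lemma p171 {y : K} (hy : y ≠ 0) : y ^ (171 * kk m) = 1 ∨ y ^ (171 * kk m) = -1 := by
  have h1 : (y ^ (171 * kk m)) ^ 2 = 1 := by
    rw [← pow_mul, show 171 * kk m * 2 = 342 * kk m by ring]
    exact pow_card_sub h hy
  rcases mul_eq_zero.1 (show (y ^ (171 * kk m) - 1) * (y ^ (171 * kk m) + 1) = 0 by
    linear_combination h1) with e | e
  · exact Or.inl (sub_eq_zero.1 e)
  · exact Or.inr (eq_neg_of_add_eq_zero_left e)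

include h in
lemma pm7 {y : K} (hy : y ≠ 0) : (y ^ (171 * kk m)) ^ 7 = y ^ (171 * kk m) := by
  rcases p171 h hy with e | e <;> rw [e] <;> norm_num

include h in
lemma nm_171 {x y : K} (hx : x ≠ 0) :
    (nm m x y) ^ (171 * kk m) = x ^ (171 * kk m) * y ^ (171 * kk m) := by
  unfold nm
  rw [mul_pow, ← pow_mul, mul_comm ((7 ^ m) ^ cl m y) (171 * kk m), pow_mul, ← pow_mul 7,
    pow_seven_pow (pm7 h hx)]

/-- the power `Q ^ j` permutes the ninth roots of unity -/
lemma ninth_pow (j : ℕ) {y : K} (hy : y ^ 9 = 1) :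
    ∃ x : K, x ^ 9 = 1 ∧ x ^ ((7 ^ m) ^ j) = y := by
  refine ⟨y ^ ((7 ^ m) ^ (2 * j)), ?_, ?_⟩
  · rw [← pow_mul, mul_comm, pow_mul, hy, one_pow]
  · rw [← pow_mul, ← pow_add, ← pow_mul]
    have h1 : 7 ^ (m * (2 * j + j)) % 9 = 1 := by
      rw [show m * (2 * j + j) = 3 * (m * j) by ring, pow_mul, Nat.pow_mod]
      norm_num
    have h2 : 7 ^ (m * (2 * j + j)) = 9 * (7 ^ (m * (2 * j + j)) / 9) + 1 := by omega
    rw [h2, pow_add, pow_mul, hy, one_pow, one_mul, pow_one]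

lemma nm_nine {x y : K} (hx : x ^ 9 = 1) (hy : y ^ 9 = 1) : (nm m x y) ^ 9 = 1 := by
  unfold nm
  rw [mul_pow, hy, mul_one, ← pow_mul, mul_comm, pow_mul, hx, one_pow]

lemma ni_nine {y : K} (hy : y ^ 9 = 1) : (ni m y) ^ 9 = 1 := by
  unfold ni
  rw [← pow_mul, mul_comm, pow_mul, inv_pow, hy, inv_one, one_pow]

include h in
/-- a cube root of two -/
lemma exists_zeta : ∃ ζ : K, ζ ^ 3 = 2 := by
  have hf : Finite K := finite_K h
  have h7 := seven (K := K)
  obtain ⟨g, hg⟩ := IsCyclic.exists_generator (α := Kˣ)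
  let t : Kˣ := Units.mk0 2 two_ne
  obtain ⟨n, hn⟩ := Subgroup.mem_zpowers_iff.1 (hg t)
  have ho : orderOf g = 342 * kk m := by
    rw [orderOf_eq_card_of_forall_mem_zpowers hg, Nat.card_units, h, ← kk_eq, Nat.add_sub_cancel]
  have ht : t ^ 3 = 1 := by
    apply Units.ext
    change (2 : K) ^ 3 = 1
    linear_combination h7
  have h3 : g ^ (n * 3) = 1 := by rw [zpow_mul, hn]; exact_mod_cast ht
  have h4 : ((342 * kk m : ℕ) : ℤ) ∣ n * 3 := by
    rw [← ho]
    exact orderOf_dvd_iff_zpow_eq_one.2 h3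
  obtain ⟨c, hc⟩ : (3 : ℤ) ∣ n := by
    obtain ⟨c, hc⟩ := h4
    push_cast at hc
    refine ⟨38 * (kk m * c), ?_⟩
    have : n * 3 = 3 * (38 * (kk m * c)) * 3 := by rw [hc]; ring
    exact mul_right_cancel₀ (by norm_num) this
  refine ⟨((g ^ c : Kˣ) : K), ?_⟩
  have h5 : (g ^ c) ^ 3 = t := by
    rw [← hn, hc, mul_comm, zpow_mul]
    norm_cast
  have h6 := congrArg Units.val h5
  rw [Units.val_pow_eq_pow_val] at h6
  exact h6

end K

section cert

variable {K : Type} [Field K] [CharP K 7] {ζ : K} {m : ℕ} (h : Nat.card K = 343 ^ m)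
  (hm : m % 3 ≠ 0) (hz : ζ ^ 3 = 2)

lemma nrM_pow (x : M) (hx : x ≠ (0, 0, 0)) : nrM x ^ 2 = 1 ∨ nrM x ^ 2 = 2 ∨ nrM x ^ 2 = 4 := by
  have h1 : ∀ a b c : ZMod 7, (a, b, c) ≠ ((0, 0, 0) : M) → nrM (a, b, c) ^ 2 = 1 ∨
      nrM (a, b, c) ^ 2 = 2 ∨ nrM (a, b, c) ^ 2 = 4 := by
    decide +kernel
  exact h1 x.1 x.2.1 x.2.2 hx

lemma ph_frob_iter (hz : ζ ^ 3 = 2) (n : ℕ) (x : M) : ph ζ x ^ (7 ^ n) = ph ζ (sigM^[n] x) := by
  induction n generalizing x with
  | zero => simp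
  | succ n ih => rw [pow_succ, mul_comm, pow_mul, ph_frob hz, ih, Function.iterate_succ_apply]

lemma sigM_three (x : M) : sigM^[3] x = x := by
  have h1 : ∀ a b c : ZMod 7, sigM^[3] (a, b, c) = (a, b, c) := by decide +kernel
  exact h1 x.1 x.2.1 x.2.2

lemma sigM_mod (n : ℕ) (x : M) : sigM^[n] x = sigM^[n % 3] x := by
  conv_lhs => rw [← Nat.mod_add_div n 3]
  rw [Function.iterate_add_apply, Function.iterate_mul]
  congr 1
  generalize n / 3 = k
  induction k with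
  | zero => rfl
  | succ k ih => rw [Function.iterate_succ_apply, sigM_three, ih]

lemma two_pow_mod (w : ZMod 7) (hw : w ^ 3 = 1) (n : ℕ) : w ^ n = w ^ (n % 3) := by
  conv_lhs => rw [← Nat.mod_add_div n 3, pow_add, pow_mul, hw, one_pow, mul_one]

include hz in
lemma ph_114 (x : M) : ph ζ x ^ (114 * kk m) = io K ((nrM x ^ 2) ^ kk m) := by
  rw [pow_mul, show 114 = 57 * 2 by norm_num, pow_mul, ph_57 hz, map_pow, map_pow]

include hz in
lemma ph_171 (x : M) : ph ζ x ^ (171 * kk m) = io K ((nrM x ^ 3) ^ kk m) := by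
  rw [pow_mul, show 171 = 57 * 3 by norm_num, pow_mul, ph_57 hz, map_pow, map_pow]

include hz hm in
lemma cl_ph (x : M) (hx : x ≠ (0, 0, 0)) : m * cl m (ph ζ x) % 3 = clM x := by
  have hk : kk m % 3 = m % 3 := by
    have := kk_mod m
    omega
  have h1 : ph ζ x ^ (114 * kk m) = io K ((nrM x ^ 2) ^ (m % 3)) := by
    rw [ph_114 hz, two_pow_mod _ _ (kk m), hk]
    rcases nrM_pow x hx with e | e | e <;> rw [e] <;> decide
  have h4 : io K 4 = 4 := map_ofNat _ _
  have h2 : io K 2 = 2 := map_ofNat _ _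
  have i4 : ∀ w : ZMod 7, io K w = 4 ↔ w = 4 := by
    intro w
    have hp : Fact (Nat.Prime 7) := ⟨by norm_num⟩
    rw [← h4]
    exact (io K).injective.eq_iff
  have i2 : ∀ w : ZMod 7, io K w = 2 ↔ w = 2 := by
    intro w
    have hp : Fact (Nat.Prime 7) := ⟨by norm_num⟩
    rw [← h2]
    exact (io K).injective.eq_iff
  unfold cl clM
  simp only [h1, i4, i2]
  have hm3 : m % 3 = 1 ∨ m % 3 = 2 := by omega
  have f1 : ¬ ((1 : ZMod 7) = 4) := by decide
  have f2 : ¬ ((1 : ZMod 7) = 2) := by decide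
  have f3 : ¬ ((2 : ZMod 7) = 4) := by decide
  have f4 : ¬ ((4 : ZMod 7) = 2) := by decide
  have f5 : ((2 : ZMod 7)) ^ 2 = 4 := by decide
  have f6 : ((4 : ZMod 7)) ^ 2 = 2 := by decide
  rcases hm3 with hm3 | hm3 <;> rcases nrM_pow x hx with e | e | e <;> rw [e, hm3] <;>
    simp only [pow_one, one_pow, f1, f2, f3, f4, f5, f6, if_true, if_false] <;> omega

include hz hm in
lemma nm_ph (x y : M) : nm m (ph ζ x) (ph ζ y) = ph ζ (nmM x y) := by
  by_cases hy : y = (0, 0, 0)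
  · subst hy
    rw [ph_zero, nm_zero]
    have : nmM x (0, 0, 0) = (0, 0, 0) := by
      unfold nmM mulM
      simp
    rw [this, ph_zero]
  · unfold nm nmM
    rw [← pow_mul 7, ph_frob_iter hz, ph_mul hz, sigM_mod, cl_ph hm hz y hy]

end cert

end Pool.Agent.KS6_42.NFD
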